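import Pool.Agent.Run7.h619.PR.Iface

/-!
# Families of diffeomorphisms which contain all small affine maps (piece AFF of project PROD)
-/

set_option autoImplicit false

open scoped Manifold ContDiff Topology NNReal
open Filter Set Metric

namespace Run7.h19.PR

open Pool.Agent.H718R2.G Pool.Agent.TH80.OMS Run7.h619.PR

theorem t_AFF : S_AFF := by
  intro k
  set j : ℕ := Module.finrank ℝ (V k × (V k →L[ℝ] V k)) with hj
  have hfr : Module.finrank ℝ (V j) = Module.finrank ℝ (V k × (V k →L[ℝ] V k)) := by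
    rw [← hj]; simp
  let e : V j ≃L[ℝ] (V k × (V k →L[ℝ] V k)) := ContinuousLinearEquiv.ofFinrankEq hfr
  set β : V k → ℝ := fun v => Real.smoothTransition ((4 - 16 * ‖v‖ ^ 2) / 3) with hβ
  have hβs : ContDiff ℝ ∞ β := by
    have h1 : ContDiff ℝ ∞ (fun v : V k => (4 - 16 * ‖v‖ ^ 2) / 3) := by
      have h2 : ContDiff ℝ ∞ (fun v : V k => ‖v‖ ^ 2) := contDiff_norm_sq ℝ
      exact ((contDiff_const.sub (contDiff_const.mul h2)).div_const 3)
    exact Real.smoothTransition.contDiff.comp h1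
  have hβ0 : ∀ v, 1 / 2 ≤ ‖v‖ → β v = 0 := by
    intro v hv
    apply Real.smoothTransition.zero_of_nonpos
    have : 0 ≤ ‖v‖ := norm_nonneg v
    nlinarith
  have hβ1 : ∀ v, ‖v‖ ≤ 1 / 4 → β v = 1 := by
    intro v hv
    apply Real.smoothTransition.one_of_one_le
    have : 0 ≤ ‖v‖ := norm_nonneg v
    nlinarith
  let γ : ContDiffBump (0 : V j) := ⟨1, 2, one_pos, one_lt_two⟩
  have hγs : ContDiff ℝ ∞ (γ : V j → ℝ) := γ.contDiff
  set B : V j × V k → V k := fun p => (e p.1).1 + (e p.1).2 p.2 with hB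
  have hBs : ContDiff ℝ ∞ B := by
    have h1 : ContDiff ℝ ∞ (fun p : V j × V k => e p.1) :=
      (e : V j →L[ℝ] (V k × (V k →L[ℝ] V k))).contDiff.comp contDiff_fst
    exact h1.fst.add (h1.snd.clm_apply contDiff_snd)
  set g₀ : V j × V k → V k := fun p => (γ p.1 * β p.2) • B p with hg₀
  have hg₀s : ContDiff ℝ ∞ g₀ :=
    ((hγs.comp contDiff_fst).mul (hβs.comp contDiff_snd)).smul hBs
  have hg₀c : HasCompactSupport g₀ := by
    apply HasCompactSupport.intro (isCompact_closedBall (0 : V j × V k) 2)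
    intro p hp
    rw [mem_closedBall, dist_zero_right, not_le, Prod.norm_def, lt_max_iff] at hp
    rw [hg₀]
    simp only
    rcases hp with hp | hp
    · have h0 : γ p.1 = 0 := by
        apply γ.zero_of_le_dist
        rw [dist_zero_right]
        exact hp.le
      rw [h0, zero_mul, zero_smul]
    · rw [hβ0 p.2 (by linarith), mul_zero, zero_smul]
  obtain ⟨C₀, hC₀⟩ := ContDiff.lipschitzWith_of_hasCompactSupport (𝕂 := ℝ) (n := ∞)
    hg₀c hg₀s (by simp)
  have hC0 : (0 : ℝ) ≤ C₀ := C₀.coe_nonneg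
  set s : ℝ := 1 / (2 * (C₀ + 1)) with hs
  have hs0 : 0 < s := by rw [hs]; positivity
  have hsC : s * C₀ ≤ 1 / 2 := by
    rw [hs]
    have : 1 / (2 * ((C₀ : ℝ) + 1)) * C₀ = C₀ / (2 * (C₀ + 1)) := by
      field_simp
    rw [this, div_le_div_iff₀ (by positivity) (by norm_num)]
    nlinarith
  set g : V j × V k → V j × V k := fun p => (0, s • g₀ p) with hg
  have hgs : ContDiff ℝ ∞ g := contDiff_const.prodMk (hg₀s.const_smul s)
  have hgl : LipschitzWith (1 / 2) g := by
    refine LipschitzWith.of_dist_le_mul fun p p' => ?_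
    have h1 : dist (g p) (g p') = ‖s • g₀ p - s • g₀ p'‖ := by
      rw [Prod.dist_eq, hg]
      simp only [dist_self]
      rw [max_eq_right dist_nonneg, dist_eq_norm]
    rw [h1, ← smul_sub, norm_smul, Real.norm_eq_abs, abs_of_pos hs0, ← dist_eq_norm]
    have h2 := hC₀.dist_le_mul p p'
    have h8 : (((1 / 2 : ℝ≥0)) : ℝ) = 1 / 2 := by simp
    rw [h8]
    calc s * dist (g₀ p) (g₀ p') ≤ s * (C₀ * dist p p') :=
          mul_le_mul_of_nonneg_left h2 hs0.le
      _ = (s * C₀) * dist p p' := by ring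
      _ ≤ 1 / 2 * dist p p' := mul_le_mul_of_nonneg_right hsC dist_nonneg
  obtain ⟨H, hH1, hH2, hH3⟩ := Pool.Agent.W782.SC.perturb g hgs le_rfl hgl
  set F : V j × V k → V k := fun q => q.2 + s • g₀ q with hF
  set F' : V j × V k → V k := fun q => (H.symm q).2 with hF'
  have hH : ∀ a v, H (a, v) = (a, F (a, v)) := by
    intro a v
    rw [hH3, hg, hF]
    simp
  have hHs1 : ∀ a v, (H.symm (a, v)).1 = a := by
    intro a v
    have h1 := H.apply_symm_apply (a, v)
    have h2 : H (H.symm (a, v)) = H ((H.symm (a, v)).1, (H.symm (a, v)).2) := rfl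
    rw [h2, hH] at h1
    exact congrArg Prod.fst h1
  have hinv1 : ∀ x v, F' (x, F (x, v)) = v := by
    intro x v
    have h1 : F' (x, F (x, v)) = (H.symm (x, F (x, v))).2 := rfl
    rw [h1, ← hH, H.symm_apply_apply]
  have hinv2 : ∀ x v, F (x, F' (x, v)) = v := by
    intro x v
    have h1 := H.apply_symm_apply (x, v)
    have h2 : H.symm (x, v) = (x, F' (x, v)) := Prod.ext (hHs1 _ _) rfl
    rw [h2, hH] at h1
    exact congrArg Prod.snd h1
  have hout : ∀ x v, v ∉ Metric.closedBall (0 : V k) (1 / 2) → F (x, v) = v := by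
    intro x v hv
    have h0 : β v = 0 := by
      rw [mem_closedBall, dist_zero_right, not_le] at hv
      exact hβ0 v hv.le
    rw [hF]
    simp only
    rw [hg₀]
    simp only
    rw [h0, mul_zero, zero_smul, smul_zero, add_zero]
  set N : ℝ := ‖(e.symm : (V k × (V k →L[ℝ] V k)) →L[ℝ] V j)‖ with hN
  have hN0 : 0 ≤ N := norm_nonneg (e.symm : (V k × (V k →L[ℝ] V k)) →L[ℝ] V j)
  set C : ℝ := s⁻¹ * (N + 1) with hC
  have hCp : 0 < C := by rw [hC]; positivity
  refine ⟨j, F, F', 1 / (2 * C), C, by positivity, hCp,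
    ⟨?_, ?_, hinv1, hinv2, hout, ?_, ?_⟩, ?_⟩
  · exact contDiff_snd.add (hg₀s.const_smul s)
  · exact contDiff_snd.comp hH2
  · intro x v hv
    have h1 := hinv1 x v
    rw [hout x v hv] at h1
    exact h1
  · intro v
    rw [hF]
    simp only
    rw [hg₀, hB]
    simp
  · intro b L hb hL
    have hle : ‖s⁻¹ • e.symm (b, L)‖ ≤ C * (‖b‖ + ‖L‖) := by
      rw [norm_smul, Real.norm_eq_abs, abs_of_pos (inv_pos.2 hs0), hC, mul_assoc]
      apply mul_le_mul_of_nonneg_left _ (inv_pos.2 hs0).le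
      have h1 : ‖e.symm (b, L)‖ ≤ N * ‖((b, L) : V k × (V k →L[ℝ] V k))‖ :=
        (e.symm : (V k × (V k →L[ℝ] V k)) →L[ℝ] V j).le_opNorm _
      have h2 : ‖((b, L) : V k × (V k →L[ℝ] V k))‖ ≤ ‖b‖ + ‖L‖ := by
        rw [Prod.norm_def]
        exact max_le (le_add_of_nonneg_right (norm_nonneg _))
          (le_add_of_nonneg_left (norm_nonneg _))
      calc ‖e.symm (b, L)‖ ≤ N * ‖((b, L) : V k × (V k →L[ℝ] V k))‖ := h1
        _ ≤ (N + 1) * (‖b‖ + ‖L‖) := mul_le_mul (by linarith) h2 (norm_nonneg _) (by linarith)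
    refine ⟨s⁻¹ • e.symm (b, L), hle, ?_⟩
    intro v hv
    have h1 : ‖s⁻¹ • e.symm (b, L)‖ ≤ 1 := by
      refine hle.trans ?_
      have h3 : ‖b‖ + ‖L‖ ≤ 1 / C := by
        have h4 : 1 / (2 * C) + 1 / (2 * C) = 1 / C := by field_simp; norm_num
        linarith
      calc C * (‖b‖ + ‖L‖) ≤ C * (1 / C) := mul_le_mul_of_nonneg_left h3 hCp.le
        _ = 1 := by field_simp
    have h2 : γ (s⁻¹ • e.symm (b, L)) = 1 := by
      apply γ.one_of_mem_closedBall
      rw [Metric.mem_closedBall, dist_zero_right]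
      exact h1
    have h3 : e (s⁻¹ • e.symm (b, L)) = (s⁻¹ • b, s⁻¹ • L) := by
      rw [map_smul, e.apply_symm_apply]
      rfl
    rw [hF]
    simp only
    rw [hg₀]
    simp only
    rw [h2, hβ1 v hv.le, hB]
    simp only
    rw [h3]
    simp only
    rw [one_mul, one_smul, smul_add, smul_inv_smul₀ hs0.ne', _root_.smul_apply,
      smul_inv_smul₀ hs0.ne']

end Run7.h19.PR
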